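import Pool.Agent.Helper27.FK.Two

/-!
# Pieces P0, P3E, P3V of theorem F (repeated rates), MP_1d4ead_co
-/

open Finset Filter Topology

namespace Pool.Agent.Helper67.FKF

/-- P0: phases can be normalised without changing the floors. -/
theorem P0' {r θ : ℝ} (h0 : 0 < r) (h1 : r < 1) (hθ : 0 ≤ θ ∧ θ < 1) :
    ∃ θ' : ℝ, (0 ≤ θ' ∧ θ' < 1) ∧
      (∀ s : ℚ, (s : ℝ) = r → ∃ z : ℤ, 2 * (s.den : ℝ) * θ' = 2 * z + 1) ∧
      ∀ j : ℤ, ⌊(j : ℝ) * r + θ'⌋ = ⌊(j : ℝ) * r + θ⌋ := by
  by_cases hr : ∃ s : ℚ, (s : ℝ) = r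
  · obtain ⟨s, hs⟩ := hr
    have hq : (0 : ℝ) < (s.den : ℝ) := by exact_mod_cast s.den_pos
    set a : ℤ := ⌊(s.den : ℝ) * θ⌋ with ha
    have ha0 : 0 ≤ a := Int.floor_nonneg.mpr (by have := hθ.1; positivity)
    have ha1 : a < s.den := by
      rw [ha, Int.floor_lt]
      push_cast
      nlinarith [hθ.2]
    have ha2 : (a : ℝ) ≤ (s.den : ℝ) * θ := Int.floor_le _
    have ha3 : (s.den : ℝ) * θ < a + 1 := Int.lt_floor_add_one _
    have hsr : r = (s.num : ℝ) / (s.den : ℝ) := by
      rw [← hs]
      exact (Rat.cast_def s)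
    refine ⟨((a : ℝ) + 1 / 2) / s.den, ⟨by positivity, ?_⟩, ?_, ?_⟩
    · rw [div_lt_one hq]
      have : (a : ℝ) + 1 ≤ s.den := by exact_mod_cast ha1
      linarith
    · intro s' hs'
      have : s' = s := by
        have : (s' : ℝ) = (s : ℝ) := by rw [hs', hs]
        exact_mod_cast this
      subst this
      refine ⟨a, ?_⟩
      field_simp
    · intro j
      set b : ℤ := ⌊(j : ℝ) * r + θ⌋ with hb
      have hb1 : (b : ℝ) ≤ (j : ℝ) * r + θ := Int.floor_le _
      have hb2 : (j : ℝ) * r + θ < b + 1 := Int.lt_floor_add_one _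
      rw [Int.floor_eq_iff]
      -- multiply by the denominator
      have e1 : (s.den : ℝ) * ((j : ℝ) * r + θ) = (j * s.num : ℤ) + s.den * θ := by
        rw [hsr]; push_cast; field_simp
      have e2 : (s.den : ℝ) * ((j : ℝ) * r + ((a : ℝ) + 1 / 2) / s.den) =
          (j * s.num : ℤ) + a + 1 / 2 := by
        rw [hsr]; push_cast; field_simp; ring
      have k1 : (s.den * b : ℤ) ≤ j * s.num + a := by
        have : ((s.den * b : ℤ) : ℝ) < ((j * s.num + a + 1 : ℤ) : ℝ) := by
          push_cast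
          have := mul_le_mul_of_nonneg_left hb1 hq.le
          rw [e1] at this
          push_cast at this
          linarith
        have := Int.cast_lt.mp this
        omega
      have k2 : j * s.num + a + 1 ≤ (s.den * (b + 1) : ℤ) := by
        have : ((j * s.num + a : ℤ) : ℝ) < ((s.den * (b + 1) : ℤ) : ℝ) := by
          push_cast
          have := mul_lt_mul_of_pos_left hb2 hq
          rw [e1] at this
          push_cast at this
          linarith
        have := Int.cast_lt.mp this
        omega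
      have k1' : ((s.den * b : ℤ) : ℝ) ≤ ((j * s.num + a : ℤ) : ℝ) := by exact_mod_cast k1
      have k2' : ((j * s.num + a + 1 : ℤ) : ℝ) ≤ ((s.den * (b + 1) : ℤ) : ℝ) := by
        exact_mod_cast k2
      push_cast at k1' k2' e2
      constructor
      · refine le_of_mul_le_mul_left ?_ hq
        rw [e2]; linarith
      · refine lt_of_mul_lt_mul_left ?_ hq.le
        rw [e2]; linarith
  · exact ⟨θ, hθ, fun s hs => absurd ⟨s, hs⟩ hr, fun j => rfl⟩

/-- P3E: the relations holding eventually hold simultaneously eventually. -/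
theorem P3E {n : ℕ} {ι : Type*} (U : Ultrafilter ι) (r : ι → Fin n → ℝ) :
    ∀ᶠ m in U, ∀ k : Fin n → ℤ, (∀ᶠ m' in U, ∃ z : ℤ, ∑ i, (k i : ℝ) * r m' i = z) →
      ∃ z : ℤ, ∑ i, (k i : ℝ) * r m i = z := by
  -- the lattice of relations at a point
  let R : ι → AddSubgroup (Fin n → ℤ) := fun m =>
    { carrier := {k | ∃ z : ℤ, ∑ i, (k i : ℝ) * r m i = z}
      zero_mem' := ⟨0, by simp⟩
      add_mem' := by
        rintro a b ⟨x, hx⟩ ⟨y, hy⟩
        refine ⟨x + y, ?_⟩
        push_cast
        rw [← hx, ← hy, ← Finset.sum_add_distrib]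
        refine Finset.sum_congr rfl fun i _ => ?_
        rw [Pi.add_apply]; push_cast; ring
      neg_mem' := by
        rintro a ⟨x, hx⟩
        refine ⟨-x, ?_⟩
        push_cast
        rw [← hx, ← Finset.sum_neg_distrib]
        refine Finset.sum_congr rfl fun i _ => ?_
        rw [Pi.neg_apply]; push_cast; ring }
  let L : AddSubgroup (Fin n → ℤ) :=
    { carrier := {k | ∀ᶠ m in U, k ∈ R m}
      zero_mem' := Filter.Eventually.of_forall fun m => (R m).zero_mem
      add_mem' := by
        intro a b ha hb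
        filter_upwards [ha, hb] with m h1 h2 using (R m).add_mem h1 h2
      neg_mem' := by
        intro a ha
        filter_upwards [ha] with m h1 using (R m).neg_mem h1 }
  have hfg : (AddSubgroup.toIntSubmodule L).FG := IsNoetherian.noetherian _
  obtain ⟨S, hS⟩ := hfg
  have hS' : ∀ k ∈ S, k ∈ L := by
    intro k hk
    have : k ∈ Submodule.span ℤ (S : Set (Fin n → ℤ)) := Submodule.subset_span hk
    rw [hS] at this
    exact this
  have h1 : ∀ᶠ m in (U : Filter ι), ∀ k ∈ S, k ∈ R m := by
    rw [Filter.eventually_all_finset]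
    intro k hk
    exact hS' k hk
  filter_upwards [h1] with m hm k hk
  have hkL : k ∈ AddSubgroup.toIntSubmodule L := hk
  rw [← hS] at hkL
  have hle : Submodule.span ℤ (S : Set (Fin n → ℤ)) ≤ AddSubgroup.toIntSubmodule (R m) := by
    rw [Submodule.span_le]
    intro k hk
    exact hm k hk
  exact hle hkL

/-- P3V: an integer vector orthogonal to `Λ` whose support is as large as possible. -/
theorem P3V {n : ℕ} (Λ : AddSubgroup (Fin n → ℤ)) :
    ∃ v : Fin n → ℤ, (∀ k ∈ Λ, ∑ i, k i * v i = 0) ∧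
      ∀ i, v i = 0 → ∃ Q : ℕ, 0 < Q ∧ Pi.single i (Q : ℤ) ∈ Λ := by
  classical
  -- the rational hull of the lattice
  let W : Submodule ℚ (Fin n → ℚ) :=
    { carrier := {x | ∃ Q : ℕ, 0 < Q ∧ ∃ k ∈ Λ, ∀ i, (Q : ℚ) * x i = (k i : ℚ)}
      zero_mem' := ⟨1, one_pos, 0, Λ.zero_mem, by intro i; simp⟩
      add_mem' := by
        rintro a b ⟨P, hP, k, hk, h1⟩ ⟨Q, hQ, l, hl, h2⟩
        refine ⟨P * Q, Nat.mul_pos hP hQ, (Q : ℤ) • k + (P : ℤ) • l,
          Λ.add_mem (Λ.zsmul_mem hk _) (Λ.zsmul_mem hl _), ?_⟩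
        intro i
        simp only [Pi.add_apply, Pi.smul_apply, smul_eq_mul]
        push_cast
        rw [← h1 i, ← h2 i]; ring
      smul_mem' := by
        rintro c x ⟨Q, hQ, k, hk, h1⟩
        refine ⟨Q * c.den, Nat.mul_pos hQ c.den_pos, c.num • k, Λ.zsmul_mem hk _, ?_⟩
        intro i
        simp only [Pi.smul_apply, smul_eq_mul]
        push_cast
        rw [← h1 i]
        have : (c.den : ℚ) * c = c.num := by
          rw [mul_comm]; exact Rat.mul_den_eq_num c
        calc (Q : ℚ) * c.den * (c * x i) = ((c.den : ℚ) * c) * (Q * x i) := by ring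
          _ = _ := by rw [this] }
  have hΛW : ∀ k ∈ Λ, (fun i => (k i : ℚ)) ∈ W := fun k hk => ⟨1, one_pos, k, hk, by intro i; simp⟩
  -- functionals
  have hfun : ∀ i, (Pi.single i (1 : ℚ) : Fin n → ℚ) ∉ W →
      ∃ w : Fin n → ℚ, (∀ x ∈ W, ∑ j, x j * w j = 0) ∧ w i ≠ 0 := by
    intro i hi
    obtain ⟨f, hf1, hf2⟩ := Submodule.exists_le_ker_of_notMem hi
    refine ⟨fun j => f (Pi.single j 1), ?_, hf1⟩
    intro x hx
    have h1 : f x = 0 := hf2 hx
    have h2 : x = ∑ j, x j • (Pi.single j (1 : ℚ) : Fin n → ℚ) := by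
      funext l
      simp [Finset.sum_apply, Pi.single_apply]
    rw [h2, map_sum] at h1
    rw [← h1]
    refine Finset.sum_congr rfl fun j _ => ?_
    rw [map_smul, smul_eq_mul]
  -- generic combination
  have hgen : ∀ S : Finset (Fin n), (∀ i ∈ S, (Pi.single i (1 : ℚ) : Fin n → ℚ) ∉ W) →
      ∃ w : Fin n → ℚ, (∀ x ∈ W, ∑ j, x j * w j = 0) ∧ ∀ i ∈ S, w i ≠ 0 := by
    intro S
    induction S using Finset.induction_on with
    | empty => exact fun _ => ⟨0, by simp, by simp⟩
    | insert a S ha ih =>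
      intro hS
      obtain ⟨w, hw1, hw2⟩ := ih fun i hi => hS i (Finset.mem_insert_of_mem hi)
      obtain ⟨u, hu1, hu2⟩ := hfun a (hS a (Finset.mem_insert_self _ _))
      -- choose `t` avoiding finitely many values
      obtain ⟨t, ht⟩ := (((insert a S).image fun i => - w i / u i) : Finset ℚ).exists_notMem
      refine ⟨fun i => w i + t * u i, ?_, ?_⟩
      · intro x hx
        have e : ∑ j, x j * (w j + t * u j) = ∑ j, x j * w j + t * ∑ j, x j * u j := by
          rw [Finset.mul_sum, ← Finset.sum_add_distrib]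
          exact Finset.sum_congr rfl fun j _ => by ring
        rw [e, hw1 x hx, hu1 x hx]; ring
      · intro i hi
        by_cases hui : u i = 0
        · have hia : i ≠ a := by rintro rfl; exact hu2 hui
          have hiS : i ∈ S := (Finset.mem_insert.mp hi).resolve_left hia
          simpa [hui] using hw2 i hiS
        · intro h
          apply ht
          rw [Finset.mem_image]
          refine ⟨i, hi, ?_⟩
          field_simp
          linarith
  obtain ⟨w, hw1, hw2⟩ := hgen (Finset.univ.filter fun i =>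
    (Pi.single i (1 : ℚ) : Fin n → ℚ) ∉ W) (by intro i hi; simpa using hi)
  -- clear denominators
  let N : ℕ := ∏ i, (w i).den
  have hN : 0 < N := Finset.prod_pos fun i _ => (w i).den_pos
  have hNw : ∀ i, ∃ z : ℤ, (N : ℚ) * w i = z := by
    intro i
    refine ⟨(∏ j ∈ Finset.univ.erase i, ((w j).den : ℤ)) * (w i).num, ?_⟩
    have h1 : (N : ℚ) = (∏ j ∈ Finset.univ.erase i, ((w j).den : ℚ)) * (w i).den := by
      have : N = (∏ j ∈ Finset.univ.erase i, (w j).den) * (w i).den := by
        rw [Finset.prod_erase_mul _ _ (Finset.mem_univ i)]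
      rw [this]; push_cast; rfl
    have h2 : ((w i).den : ℚ) * w i = (w i).num := by
      rw [mul_comm]; exact Rat.mul_den_eq_num _
    rw [h1]
    push_cast
    rw [mul_assoc, h2]
  choose v hv using hNw
  refine ⟨v, ?_, ?_⟩
  · intro k hk
    have h1 := hw1 _ (hΛW k hk)
    have h2 : ((∑ i, k i * v i : ℤ) : ℚ) = (N : ℚ) * ∑ i, (k i : ℚ) * w i := by
      push_cast
      rw [Finset.mul_sum]
      refine Finset.sum_congr rfl fun i _ => ?_
      rw [← hv i]; ring
    rw [h1, mul_zero] at h2
    exact_mod_cast h2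
  · intro i hi
    have hwi : w i = 0 := by
      have := hv i
      rw [hi] at this
      have hN' : (N : ℚ) ≠ 0 := by exact_mod_cast hN.ne'
      simpa [hN'] using this
    have hmem : (Pi.single i (1 : ℚ) : Fin n → ℚ) ∈ W := by
      by_contra hcon
      exact hw2 i (by simpa using hcon) hwi
    obtain ⟨Q, hQ, k, hk, h⟩ := hmem
    refine ⟨Q, hQ, ?_⟩
    have : (Pi.single i (Q : ℤ) : Fin n → ℤ) = k := by
      funext j
      have := h j
      by_cases hji : j = i
      · subst hji
        simp at this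
        simp
        exact_mod_cast this
      · simp [hji] at this
        simp [hji]
        exact_mod_cast this
    rw [this]; exact hk

end Pool.Agent.Helper67.FKF
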